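import Pool.Agent.Lib.MP_d8e360_co.Final

/-!
MP_d8e360_co: for every `d ≥ 1` and `η > 0`, `f_{2d-1}(n, 2d, d+1) ≤ exp ((log n)^(1/d + η))`
for all large `n`.  So the exponent of `log n` can be made as small as one likes by taking
`d` large.
-/

set_option autoImplicit false

namespace Pool.Agent.Results.MP_d8e360_co.SmallExponents

/-- For every `d ≥ 1`, every `η > 0` and every large `n`, the `(2d-1)`-subsets of an `n`-set
can be coloured with at most `exp ((log n)^(1/d + η))` colours such that every `2d`-subset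
sees at least `d + 1` colours. -/
theorem result (d : ℕ) (hd : 1 ≤ d) (η : ℝ) (hη : 0 < η) :
    ∃ n₀ : ℕ, ∀ n : ℕ, n₀ ≤ n →
      ∃ m : ℕ, (m : ℝ) ≤ Real.exp (Real.log n ^ (1 / (d : ℝ) + η)) ∧
        ∃ c : Finset (Fin n) → Fin m,
          ∀ S : Finset (Fin n), S.card = 2 * d →
            d + 1 ≤ ((S.powersetCard (2 * d - 1)).image c).card :=
  Pool.Agent.Lib.MP_d8e360_co.final d hd η hη

end Pool.Agent.Results.MP_d8e360_co.SmallExponents
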